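import Mathlib

/-! # Median graphs and their cubes

The median graphs are the 1-skeletons of the CAT(0) cube complexes (Chepoi). -/

set_option autoImplicit false

namespace Pool.Agent.CC

/-- Median graphs: connected graphs in which any three vertices have a unique median. -/
structure IsMedian {V : Type} (G : SimpleGraph V) : Prop where
  conn : G.Connected
  med : ∀ u v w : V, ∃! m : V, G.dist u m + G.dist m v = G.dist u v ∧
    G.dist v m + G.dist m w = G.dist v w ∧ G.dist u m + G.dist m w = G.dist u w

/-- `G` contains no cube of dimension `n`. -/
def NoCube {V : Type} (G : SimpleGraph V) (n : ℕ) : Prop :=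
  ∀ f : (Fin n → Bool) → V, Function.Injective f →
    ¬ ∀ (x : Fin n → Bool) (i : Fin n), G.Adj (f x) (f (Function.update x i (!x i)))

/-- `c` is the set of vertices of a cube of the graph `G`. -/
def IsGCube {V : Type} (G : SimpleGraph V) (c : Set V) : Prop :=
  ∃ (n : ℕ) (f : (Fin n → Bool) → V), Function.Injective f ∧
    (∀ (x : Fin n → Bool) (i : Fin n), G.Adj (f x) (f (Function.update x i (!x i)))) ∧
    c = Set.range f

end Pool.Agent.CC
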