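import Pool.Agent.Lib.MP_8f66f0_al_Cx.Psf
import Pool.Agent.Lib.MP_8f66f0_al_Tree.SpecD
import Pool.Agent.Lib.MP_8f66f0_al_Ind.LaurPSF

/-!
MP_8f66f0_al, Theorem CC, module SFt (helper42): finitely generated projective modules over
`LL[H][X]` and `LL[X][H]` are stably free if the group `H` has `SS` and `KK`.
-/

set_option autoImplicit false

namespace Pool.Agent.CC

open Pool.Agent.Wald Pool.Agent.Ind Pool.Agent.Hier Pool.Agent.WaldL

section

variable (LL H : Type) [CommRing LL] [Group H]

/-- The group elements as constant polynomials. -/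
noncomputable def rhoX : H →* Polynomial (MonoidAlgebra LL H) :=
  ((Polynomial.C : MonoidAlgebra LL H →+* Polynomial (MonoidAlgebra LL H)) :
    MonoidAlgebra LL H →* Polynomial (MonoidAlgebra LL H)).comp (MonoidAlgebra.of LL H)

theorem gr_rhoX (x : MonoidAlgebra LL H) : gr LL (rhoX LL H) x = Polynomial.C x := by
  have h : gr LL (rhoX LL H) = (Polynomial.CAlgHom : MonoidAlgebra LL H →ₐ[LL] _) :=
    (MonoidAlgebra.lift LL (Polynomial (MonoidAlgebra LL H)) H).apply_symm_apply
      Polynomial.CAlgHom
  rw [h]
  rfl

theorem wd_X (u : List Unit) :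
    wd (fun _ : Unit => (Polynomial.X : Polynomial (MonoidAlgebra LL H))) u =
      Polynomial.X ^ u.length := by
  induction u with
  | nil => rfl
  | cons a u ih => rw [wd, ih, List.length_cons, pow_succ]

/-- Words in one letter. -/
def lenE : List Unit ≃ ℕ where
  toFun := List.length
  invFun n := List.replicate n ()
  left_inv _ := (List.eq_replicate_of_mem (fun _ _ => rfl)).symm
  right_inv _ := List.length_replicate

theorem ev_X (x : List Unit →₀ MonoidAlgebra LL H) :
    ev (gr LL (rhoX LL H) : MonoidAlgebra LL H →+* Polynomial (MonoidAlgebra LL H))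
      (fun _ : Unit => (Polynomial.X : Polynomial (MonoidAlgebra LL H))) x =
    x.sum fun u q => Polynomial.C q * Polynomial.X ^ u.length := by
  unfold ev
  refine Finsupp.sum_congr fun u _ => ?_
  rw [wd_X]
  show (gr LL (rhoX LL H)) _ * _ = _
  rw [gr_rhoX]

theorem coeff_ev (x : List Unit →₀ MonoidAlgebra LL H) (n : ℕ) :
    (ev (gr LL (rhoX LL H) : MonoidAlgebra LL H →+* Polynomial (MonoidAlgebra LL H))
      (fun _ : Unit => (Polynomial.X : Polynomial (MonoidAlgebra LL H))) x).coeff n =
    x (lenE.symm n) := by
  classical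
  rw [ev_X, Finsupp.sum, Polynomial.finsetSum_coeff]
  simp only [Polynomial.coeff_C_mul_X_pow]
  have h : ∀ u : List Unit, (n = u.length) ↔ (u = lenE.symm n) := by
    intro u
    constructor
    · rintro rfl
      exact (lenE.symm_apply_apply u).symm
    · rintro rfl
      exact (lenE.apply_symm_apply n).symm
  simp only [h]
  rw [Finset.sum_ite_eq']
  split_ifs with h1
  · rfl
  · exact (Finsupp.notMem_support_iff.1 h1).symm

theorem blkX : Blk LL (rhoX LL H)
    (fun _ : Unit => (Polynomial.X : Polynomial (MonoidAlgebra LL H))) fun _ => 0 where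
  free := by
    constructor
    · intro x y hxy
      ext u : 1
      have h1 := coeff_ev LL H x (lenE u)
      have h2 := coeff_ev LL H y (lenE u)
      rw [lenE.symm_apply_apply] at h1 h2
      rw [← h1, ← h2, hxy]
    · intro P
      refine ⟨∑ n ∈ P.support, Finsupp.single (lenE.symm n) (P.coeff n), ?_⟩
      ext n : 1
      rw [coeff_ev, Finsupp.finsetSum_apply]
      simp only [Finsupp.single_apply, EmbeddingLike.apply_eq_iff_eq]
      rw [Finset.sum_ite_eq']
      split_ifs with h1
      · rfl
      · exact (Polynomial.notMem_support_iff.1 h1).symm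
  tri := by
    intro x c
    refine ⟨Finsupp.single () (MonoidAlgebra.of LL H c), 0, ?_, fun _ _ => rfl, ?_⟩
    · rw [ev, Finsupp.sum_zero_index, add_zero, lin, Finsupp.sum_single_index]
      · show Polynomial.X * Polynomial.C _ = (gr LL (rhoX LL H)) _ * Polynomial.X
        rw [gr_rhoX, Polynomial.X_mul_C]
      · rw [map_zero, zero_mul]
    · intro u hu
      simp at hu

end

/-- A ring isomorphism transports `ProjSF`. -/
theorem projSF_equiv {R S : Type} [Ring R] [Ring S] (e : R ≃+* S) (h : ProjSF R) : ProjSF S := by
  intro P _ _ _ _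
  let _ : Module R P := Module.compHom P (e : R →+* S)
  let _ : RingHomInvPair (e : R →+* S) (e.symm : S →+* R) := RingHomInvPair.of_ringEquiv e
  let _ : RingHomInvPair (e.symm : S →+* R) (e : R →+* S) := RingHomInvPair.symm _ _
  let f : P ≃ₛₗ[(e : R →+* S)] P :=
    { AddEquiv.refl P with
      map_smul' := fun _ _ => rfl }
  have h1 : Module.Finite R P := Module.Finite.of_surjective
    (f.symm : P →ₛₗ[(e.symm : S →+* R)] P) f.symm.surjective
  have h2 : Module.Projective R P := Module.Projective.of_equiv f.symm
  obtain ⟨a, b, ⟨g⟩⟩ := h P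
  refine ⟨a, b, ⟨{
    toFun := fun v i => e (g (v.1, fun j => e.symm (v.2 j)) i)
    map_add' := fun v w => ?_
    map_smul' := fun s v => ?_
    invFun := fun w => ((g.symm fun j => e.symm (w j)).1, fun i => e ((g.symm fun j => e.symm (w j)).2 i))
    left_inv := fun v => ?_
    right_inv := fun w => ?_ }⟩⟩
  · have h3 : ((v + w).1, fun j => e.symm ((v + w).2 j)) =
        ((v.1, fun j => e.symm (v.2 j)) : P × (Fin a → R)) + (w.1, fun j => e.symm (w.2 j)) := by
      refine Prod.ext rfl ?_
      ext j
      exact map_add e.symm _ _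
    ext i
    rw [h3, map_add, Pi.add_apply, map_add]
    rfl
  · have h3 : ((s • v).1, fun j => e.symm ((s • v).2 j)) =
        e.symm s • ((v.1, fun j => e.symm (v.2 j)) : P × (Fin a → R)) := by
      refine Prod.ext ?_ ?_
      · show s • v.1 = e (e.symm s) • v.1
        rw [e.apply_symm_apply]
      · ext j
        exact map_mul e.symm _ _
    ext i
    rw [h3, map_smul, Pi.smul_apply, smul_eq_mul, map_mul, e.apply_symm_apply]
    rfl
  · have h3 : (fun j => e.symm (e (g (v.1, fun j => e.symm (v.2 j)) j))) =
        g (v.1, fun j => e.symm (v.2 j)) := by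
      ext j
      exact e.symm_apply_apply _
    refine Prod.ext ?_ ?_
    · show (g.symm fun j => e.symm (e (g (v.1, fun j => e.symm (v.2 j)) j))).1 = v.1
      rw [h3, g.symm_apply_apply]
    · ext i
      show e ((g.symm fun j => e.symm (e (g (v.1, fun j => e.symm (v.2 j)) j))).2 i) = v.2 i
      rw [h3, g.symm_apply_apply, e.apply_symm_apply]
  · have h3 : ((g.symm fun j => e.symm (w j)).1,
        fun i => e.symm (e ((g.symm fun j => e.symm (w j)).2 i))) =
        g.symm fun j => e.symm (w j) := by
      refine Prod.ext rfl ?_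
      ext i
      exact e.symm_apply_apply _
    ext i
    show e (g ((g.symm fun j => e.symm (w j)).1,
        fun i => e.symm (e ((g.symm fun j => e.symm (w j)).2 i))) i) = w i
    rw [h3, g.apply_symm_apply, e.apply_symm_apply]

/-- Finitely generated projective modules over `LL[H][X]` are stably free. -/
theorem psf_polyH {LL H : Type} [CommRing LL] [IsDomain LL] [Group H] (hL : IsEuc LL)
    (hS : SS H) (hK : KK H) : ProjSF (Polynomial (MonoidAlgebra LL H)) :=
  Cx2.psf hL (rhoX LL H) _ _ (blkX LL H) hS hK

section Iso

variable (L Γ : Type) [CommRing L] [Group Γ]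

/-- The map from the polynomials over the group algebra. -/
noncomputable def polM : Polynomial (MonoidAlgebra L Γ) →+* MonoidAlgebra (Polynomial L) Γ :=
  Polynomial.eval₂RingHom' (MonoidAlgebra.mapRingHom Γ (Polynomial.C : L →+* Polynomial L))
    (MonoidAlgebra.single 1 Polynomial.X) fun a => by
    induction a using MonoidAlgebra.induction_linear with
    | zero => simp
    | add f g hf hg => rw [map_add]; exact hf.add_left hg
    | single g r =>
      rw [MonoidAlgebra.mapRingHom_single]
      change _ * _ = _ * _
      rw [MonoidAlgebra.single_mul_single, MonoidAlgebra.single_mul_single, mul_one, one_mul,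
        mul_comm]

theorem polM_coeff (p : Polynomial (MonoidAlgebra L Γ)) (g : Γ) (n : ℕ) :
    ((polM L Γ p).coeff g).coeff n = (p.coeff n).coeff g := by
  induction p using Polynomial.induction_on' with
  | add p q hp hq =>
    rw [map_add, MonoidAlgebra.coeff_add, Finsupp.add_apply, Polynomial.coeff_add, hp, hq,
      Polynomial.coeff_add, MonoidAlgebra.coeff_add, Finsupp.add_apply]
  | monomial m a =>
    have h1 : polM L Γ (Polynomial.monomial m a) =
        MonoidAlgebra.mapRingHom Γ (Polynomial.C : L →+* Polynomial L) a *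
          MonoidAlgebra.single 1 (Polynomial.X ^ m) := by
      change Polynomial.eval₂ _ _ _ = _
      rw [Polynomial.eval₂_monomial, MonoidAlgebra.single_pow, one_pow]
    rw [h1, MonoidAlgebra.coeff_mul_single_eq_coeff_mul g (fun x _ => by rw [mul_one]),
      MonoidAlgebra.coeff_mapRingHom, Polynomial.coeff_C_mul, Polynomial.coeff_X_pow,
      Polynomial.coeff_monomial]
    by_cases h : n = m
    · subst h
      simp
    · rw [if_neg h, if_neg (Ne.symm h), mul_zero, MonoidAlgebra.coeff_zero]
      rfl

theorem polM_inj : Function.Injective (polM L Γ) := by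
  intro p q h
  refine Polynomial.ext fun n => MonoidAlgebra.ext (Finsupp.ext fun g => ?_)
  rw [← polM_coeff, ← polM_coeff, h]

theorem polM_surj : Function.Surjective (polM L Γ) := by
  classical
  intro F
  induction F using MonoidAlgebra.induction_linear with
  | zero => exact ⟨0, map_zero _⟩
  | add f g hf hg =>
    obtain ⟨p, rfl⟩ := hf
    obtain ⟨q, rfl⟩ := hg
    exact ⟨p + q, map_add _ _ _⟩
  | single g r =>
    induction r using Polynomial.induction_on' with
    | add p q hp hq =>
      obtain ⟨p', hp'⟩ := hp
      obtain ⟨q', hq'⟩ := hq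
      exact ⟨p' + q', by rw [map_add, hp', hq', MonoidAlgebra.single_add]⟩
    | monomial m a =>
      refine ⟨Polynomial.monomial m (MonoidAlgebra.single g a), ?_⟩
      refine MonoidAlgebra.ext (Finsupp.ext fun h => Polynomial.ext fun n => ?_)
      rw [polM_coeff, Polynomial.coeff_monomial, MonoidAlgebra.coeff_single]
      by_cases hn : m = n
      · subst hn
        rw [if_pos rfl, MonoidAlgebra.coeff_single, Finsupp.single_apply, Finsupp.single_apply]
        split
        · rw [Polynomial.coeff_monomial, if_pos rfl]
        · rw [Polynomial.coeff_zero]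
      · rw [if_neg hn, MonoidAlgebra.coeff_zero, Finsupp.single_apply]
        split
        · rw [Polynomial.coeff_monomial, if_neg hn]; rfl
        · rw [Polynomial.coeff_zero]; rfl

/-- `LL[H][X] = LL[X][H]`. -/
noncomputable def polE : Polynomial (MonoidAlgebra L Γ) ≃+* MonoidAlgebra (Polynomial L) Γ :=
  RingEquiv.ofBijective (polM L Γ) ⟨polM_inj L Γ, polM_surj L Γ⟩

end Iso

/-- Finitely generated projective modules over `LL[X][H]` are stably free. -/
theorem psf_poly {LL H : Type} [CommRing LL] [IsDomain LL] [Group H] (hL : IsEuc LL)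
    (h : TreeC.KS H) : ProjSF (MonoidAlgebra (Polynomial LL) H) :=
  projSF_equiv (polE LL H) (psf_polyH hL h.2 h.1)

/-- Finitely generated projective modules over `LL[H]` are stably free. -/
theorem psf_const {LL H : Type} [CommRing LL] [IsDomain LL] [Group H] (hL : IsEuc LL)
    (h : TreeC.KS H) : ProjSF (MonoidAlgebra LL H) :=
  kk_projSF (fun L G _ _ _ h => projSF_of_whT L G h) h.1 LL hL

end Pool.Agent.CC
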