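import Pool.Agent.Lib.MP_8f66f0_al_CC.End.Fin
import Pool.Agent.Lib.MP_8f66f0_al_CC.End.KKc
import Pool.Agent.Lib.MP_8f66f0_al_CC.End.HomU
import Pool.Agent.Lib.MP_8f66f0_al_CC.End.M1
import Pool.Agent.Lib.MP_8f66f0_al_CC.End.M2
import Pool.Agent.Lib.MP_8f66f0_al_CC.End.MK
import Pool.Agent.Lib.MP_8f66f0_al_CC.End.End0
import Pool.Agent.Lib.MP_8f66f0_al_CC.End.End1
import Pool.Agent.Lib.MP_8f66f0_al_CC.End.Emb
import Pool.Agent.Lib.MP_8f66f0_al_CC.End.Fl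
import Pool.Agent.Lib.MP_8f66f0_al_CC.End.Sfc
import Pool.Agent.Lib.MP_8f66f0_al_CC.End.Nk
import Pool.Agent.Lib.MP_8f66f0_al_CC.End.Bc
import Pool.Agent.Lib.MP_8f66f0_al_CC.End.Triv1
import Pool.Agent.Lib.MP_8f66f0_al_CC.End.Bal
import Pool.Agent.Lib.MP_8f66f0_al_CC.End.Gen
import Pool.Agent.Lib.MP_8f66f0_al_CC.End.IdxS
import Pool.Agent.Lib.MP_8f66f0_al_CC.End.Spe
import Pool.Agent.Lib.MP_8f66f0_al_CC.End.Spc
import Pool.Agent.Lib.MP_8f66f0_al_CC.End.Ini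
import Pool.Agent.Lib.MP_8f66f0_al_CC.End.Fin0
import Pool.Agent.Lib.MP_8f66f0_al_CC.End.J0
import Pool.Agent.Lib.MP_8f66f0_al_CC.End.Mon
import Pool.Agent.Lib.MP_8f66f0_al_CC.End.Lab0
import Pool.Agent.Lib.MP_8f66f0_al_CC.End.Conj
import Pool.Agent.Lib.MP_8f66f0_al_CC.End.Uni
import Pool.Agent.Lib.MP_8f66f0_al_CC.End.Ext2
import Pool.Agent.Lib.MP_8f66f0_al_CC.End.Sh
import Pool.Agent.Lib.MP_8f66f0_al_CC.End.Idx0
import Pool.Agent.Lib.MP_8f66f0_al_CC.End.Flq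
import Pool.Agent.Lib.MP_8f66f0_al_CC.End.LadS
import Pool.Agent.Lib.MP_8f66f0_al_CC.Sys.SE
import Pool.Agent.Lib.MP_8f66f0_al_CC.Sys.AB
import Pool.Agent.Lib.MP_8f66f0_al_CC.Sys.L1F
import Pool.Agent.Lib.MP_8f66f0_al_CC.Sys.Psi

/-!
# Theorem CC: the assembly
-/

set_option autoImplicit false

namespace Pool.Agent.CC

/-- Lemma E. -/
theorem qE : S_E := sE sh ab l1 psi

theorem qGen1 : S_gen1 := gen1 lad (idx idx0) bal

theorem qSpc : S_spc := spc sh monc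

theorem qM1 : S_M1 := M1 uni lad flqThm qGen1 (genf lad) qSpc

theorem qM2 : S_M2 :=
  M2 (ext conj) lad flqThm qGen1 (genf lad) qSpc (triv1 (idx idx0) bal spe)
    (trivf lad qM1 pullKR spe)

theorem qKK : S_kk :=
  kk (M2K qM2 (ini fin0 J0 lab0 mon0) qE) qE bc (homU J0 (M1K qM1) nk) fl sfc
    (end0 (M1K qM1) fl) (end1 (M1K qM1) fl) emb

/-- **Theorem CC.** If a group acts without inversions on a finite dimensional CAT(0) cube complex and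
all subgroups of the vertex stabilizers have `KS`, then all its subgroups have `KS`. -/
theorem ccQ : S_CC := CC qKK

end Pool.Agent.CC
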