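import Mathlib

/-!
# Theorem CC: finite dimensional CAT(0) cube complexes as median structures

`V` is the set of vertices. A half space is a subset of `V`. The set `H` of half spaces is closed under
complements, no half space is empty, two points are separated by finitely many half spaces and by at
least one (if they are different), and there are medians. The group acts without inversions: there is an
invariant set `pos` which contains exactly one of `h`, `hᶜ`.
-/

set_option autoImplicit false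

namespace Pool.Agent.CC

open scoped Pointwise

/-- The median structure of a CAT(0) cube complex. -/
structure Med (V : Type) where
  H : Set (Set V)
  compl : ∀ h ∈ H, hᶜ ∈ H
  ne : ∀ h ∈ H, h.Nonempty
  fin : ∀ u v : V, {h | h ∈ H ∧ u ∉ h ∧ v ∈ h}.Finite
  sep : ∀ u v : V, (∀ h ∈ H, u ∈ h ↔ v ∈ h) → u = v
  med : ∀ u v w : V, ∃ m : V, ∀ h ∈ H,
    (u ∈ h → v ∈ h → m ∈ h) ∧ (u ∈ h → w ∈ h → m ∈ h) ∧ (v ∈ h → w ∈ h → m ∈ h)

/-- Two half spaces cross. -/
def Crs {V : Type} (h k : Set V) : Prop :=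
  (h ∩ k).Nonempty ∧ (h ∩ kᶜ).Nonempty ∧ (hᶜ ∩ k).Nonempty ∧ (hᶜ ∩ kᶜ).Nonempty

namespace Med

variable {V : Type} (X : Med V)

/-- The dimension is at most `N`: at most `N` pairwise crossing half spaces. -/
def Dim (N : ℕ) : Prop :=
  ∀ F : Finset (Set V), (∀ h ∈ F, h ∈ X.H) → (∀ h ∈ F, ∀ k ∈ F, h ≠ k → Crs h k) → F.card ≤ N

/-- `h` is minimal at `v`. -/
def Mn (v : V) (h : Set V) : Prop := h ∈ X.H ∧ v ∈ h ∧ ∀ k ∈ X.H, v ∈ k → k ⊆ h → k = h

/-- The half spaces which are minimal at `v` and do not contain the base point `b`. -/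
def D (b v : V) : Set (Set V) := {h | X.Mn v h ∧ b ∉ h}

theorem D_fin (b v : V) : (X.D b v).Finite :=
  (X.fin b v).subset fun _ h => ⟨h.1.1, h.2, h.1.2.1⟩

/-- `v` and `w` differ only by the wall of `h`. -/
def Opp (h : Set V) (v w : V) : Prop :=
  h ∈ X.H ∧ (v ∈ h ↔ w ∉ h) ∧ ∀ k ∈ X.H, k ≠ h → k ≠ hᶜ → (v ∈ k ↔ w ∈ k)

end Med

/-- An action without inversions. -/
structure Act (Γ : Type) {V : Type} [Group Γ] [MulAction Γ V] (X : Med V) where
  smul_mem : ∀ (g : Γ), ∀ h ∈ X.H, g • h ∈ X.H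
  pos : Set (Set V)
  pos_sub : ∀ h ∈ pos, h ∈ X.H
  pos_smul : ∀ (g : Γ), ∀ h ∈ pos, g • h ∈ pos
  pos_or : ∀ h ∈ X.H, h ∈ pos ↔ hᶜ ∉ pos

end Pool.Agent.CC
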