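import Pool.Agent.Lib.MP_8f66f0_al_CC.Geo.Smul

/-!
# Theorem CC: the geometry which is used in the homotopy
-/

set_option autoImplicit false

namespace Pool.Agent.CC

variable {V : Type}

theorem Crs.ne1 {h k : Set V} (H : Crs h k) : k ≠ h := H.symm.ne

theorem Crs.ne2 {h k : Set V} (H : Crs h k) : k ≠ hᶜ := H.symm.ne_compl

end Pool.Agent.CC

namespace Pool.Agent.CC.Med

open scoped Pointwise

variable {V : Type} (X : Med V)

section Basic

/-- `v` is adjacent to the wall of `h`. -/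
def Adj (h : Set V) (v : V) : Prop := ∃ w, X.Opp h v w

open Classical in
/-- The other side of the wall of `h`, if `v` is adjacent to it. -/
noncomputable def opp (h : Set V) (v : V) : V := if H : X.Adj h v then H.choose else v

variable {X}

theorem opp_spec {h : Set V} {v : V} (H : X.Adj h v) : X.Opp h v (X.opp h v) := by
  rw [opp, dif_pos H]
  exact H.choose_spec

theorem opp_eq {h : Set V} {v w : V} (H : X.Opp h v w) : X.opp h v = w :=
  (opp_spec ⟨w, H⟩).unique H

theorem opp_not {h : Set V} {v : V} (H : ¬ X.Adj h v) : X.opp h v = v := by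
  rw [opp, dif_neg H]

theorem adj_opp {h : Set V} {v : V} : X.Adj h (X.opp h v) ↔ X.Adj h v := by
  by_cases H : X.Adj h v
  · exact iff_of_true ⟨v, (opp_spec H).symm⟩ H
  · rw [opp_not H]

theorem opp_opp (h : Set V) (v : V) : X.opp h (X.opp h v) = v := by
  by_cases H : X.Adj h v
  · exact opp_eq (opp_spec H).symm
  · rw [opp_not H, opp_not H]

theorem adj_compl {h : Set V} {v : V} : X.Adj hᶜ v ↔ X.Adj h v :=
  exists_congr fun _ => X.opp_compl_iff

theorem opp_compl (h : Set V) (v : V) : X.opp hᶜ v = X.opp h v := by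
  by_cases H : X.Adj h v
  · exact opp_eq (opp_spec H).compl
  · rw [opp_not H, opp_not (mt adj_compl.1 H)]

theorem opp_mem {h : Set V} {v : V} (H : X.Adj h v) : X.opp h v ∈ h ↔ v ∉ h := by
  have := (opp_spec H).2.1
  tauto

theorem opp_mem_other {h k : Set V} (hk : k ∈ X.H) (h1 : k ≠ h) (h2 : k ≠ hᶜ) (v : V) :
    X.opp h v ∈ k ↔ v ∈ k := by
  by_cases H : X.Adj h v
  · exact ((opp_spec H).2.2 k hk h1 h2).symm
  · rw [opp_not H]

theorem Adj.mem_H {h : Set V} {v : V} (H : X.Adj h v) : h ∈ X.H := H.choose_spec.1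

/-- Adjacent half spaces are minimal. -/
theorem Adj.mn {h : Set V} {v : V} (H : X.Adj h v) (hv : v ∈ h) : X.Mn v h := by
  refine ⟨H.mem_H, hv, fun k hk hvk hkh => ?_⟩
  by_contra h1
  have h3 : X.opp h v ∉ h := by rw [opp_mem H]; exact fun h => h hv
  by_cases h2 : k = hᶜ
  · subst h2
    exact hvk hv
  · exact h3 (hkh ((opp_mem_other hk h1 h2 v).2 hvk))

/-- Minimal half spaces are adjacent. -/
theorem Mn.adj {h : Set V} {v : V} (H : X.Mn v h) : X.Adj h v := by
  obtain ⟨hh, hv, hmin⟩ := H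
  -- a point outside `h` at minimal distance
  let f : V → ℕ := fun w => {k | k ∈ X.H ∧ v ∉ k ∧ w ∈ k}.ncard
  obtain ⟨w, hw, hwm⟩ : ∃ w, w ∉ h ∧ ∀ w', w' ∉ h → f w ≤ f w' := by
    have hne : {w | w ∉ h}.Nonempty := X.exists_not_mem hh
    refine ⟨Function.argminOn f {w | w ∉ h} hne, Function.argminOn_mem f _ hne, fun w' hw' => ?_⟩
    exact Function.argminOn_le f _ hw'
  refine ⟨w, hh, iff_of_true hv hw, ?_⟩
  have key : ∀ k ∈ X.H, k ≠ h → k ≠ hᶜ → v ∉ k → w ∉ k := by
    intro k hk h1 h2 hvk hwk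
    obtain ⟨u, hu1, hu2⟩ : ∃ u, u ∉ k ∧ u ∉ h := by
      by_contra hcon
      push Not at hcon
      have h3 : kᶜ = h := hmin kᶜ (X.compl k hk) hvk fun u hu => hcon u hu
      exact h2 (by rw [← h3, compl_compl])
    obtain ⟨m, hm⟩ := X.med v w u
    have hmh : m ∉ h := by
      have := (hm hᶜ (X.compl h hh)).2.2 hw hu2
      exact this
    have hmk : m ∉ k := (hm kᶜ (X.compl k hk)).2.1 hvk hu1
    have hsub : {k | k ∈ X.H ∧ v ∉ k ∧ m ∈ k} ⊆ {k | k ∈ X.H ∧ v ∉ k ∧ w ∈ k} := by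
      rintro l ⟨hl, h4, h5⟩
      refine ⟨hl, h4, ?_⟩
      by_contra h6
      exact (hm lᶜ (X.compl l hl)).1 h4 h6 h5
    have hlt : f m < f w := by
      refine Set.ncard_lt_ncard ((Set.ssubset_iff_of_subset hsub).2 ⟨k, ⟨hk, hvk, hwk⟩, ?_⟩)
        (X.fin v w)
      exact fun h => hmk h.2.2
    exact absurd (hwm m hmh) (not_le.2 hlt)
  intro k hk h1 h2
  constructor
  · intro hvk
    by_contra hwk
    exact key kᶜ (X.compl k hk) (fun h => h2 (by rw [← h, compl_compl]))
      (fun h => h1 (compl_injective h)) (fun h => h hvk) hwk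
  · intro hwk
    by_contra hvk
    exact key k hk h1 h2 hvk hwk

/-- If `h`, `k` cross and `v` is adjacent to both, so is the neighbour of `v`. -/
theorem adj_of_crs {h k : Set V} (H : Crs h k) {v : V} (h1 : X.Adj h v) (h2 : X.Adj k v) :
    X.Adj k (X.opp h v) := by
  -- both half spaces may be assumed to contain `v`
  have key : ∀ {h k : Set V}, Crs h k → ∀ {v : V}, X.Adj h v → X.Adj k v → v ∈ h → v ∈ k →
      X.Adj k (X.opp h v) := by
    intro h k H v h1 h2 hv hk
    refine Mn.adj ⟨h2.mem_H, (opp_mem_other h2.mem_H H.ne1 H.ne2 v).2 hk, fun l hl h3 h4 => ?_⟩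
    by_contra hne
    have h5 : v ∉ l := fun h5 => hne ((h2.mn hk).2.2 l hl h5 h4)
    have h6 : l = hᶜ := by
      by_contra h6
      have h7 : l ≠ h := by
        rintro rfl
        exact h5 hv
      exact h5 ((opp_mem_other hl h7 h6 v).1 h3)
    obtain ⟨x, hx⟩ := H.2.2.2
    rw [h6] at h4
    exact hx.2 (h4 hx.1)
  by_cases hv : v ∈ h
  · by_cases hk : v ∈ k
    · exact key H h1 h2 hv hk
    · exact adj_compl.1 (key H.compl_right h1 (adj_compl.2 h2) hv hk)
  · rw [← opp_compl]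
    by_cases hk : v ∈ k
    · exact key H.compl_left (adj_compl.2 h1) h2 hv hk
    · exact adj_compl.1 (key H.compl_left.compl_right (adj_compl.2 h1) (adj_compl.2 h2) hv hk)

theorem adj_opp_of_crs {h k : Set V} (H : Crs h k) {v : V} (h1 : X.Adj h v) :
    X.Adj k (X.opp h v) ↔ X.Adj k v := by
  constructor
  · intro h2
    have := adj_of_crs H (adj_opp.2 h1) h2
    rwa [opp_opp] at this
  · exact fun h2 => adj_of_crs H h1 h2

theorem adj_opp_of_crs' {h k : Set V} (H : Crs h k) (v : V) :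
    X.Adj k (X.opp h v) ↔ X.Adj k v := by
  by_cases h1 : X.Adj h v
  · exact adj_opp_of_crs H h1
  · rw [opp_not h1]

theorem opp_comm {h k : Set V} (H : Crs h k) (v : V) :
    X.opp h (X.opp k v) = X.opp k (X.opp h v) := by
  by_cases h1 : X.Adj h v
  · by_cases h2 : X.Adj k v
    · refine X.sep _ _ fun l hl => ?_
      by_cases e1 : l = h ∨ l = hᶜ
      · have e2 : l ≠ k ∧ l ≠ kᶜ := by
          rcases e1 with rfl | rfl
          · exact ⟨H.symm.ne1, H.symm.ne2⟩
          · exact ⟨H.symm.compl_right.ne1, H.symm.compl_right.ne2⟩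
        rw [opp_mem_other hl e2.1 e2.2]
        have e3 : ∀ x, X.Adj h x → (X.opp h x ∈ l ↔ x ∉ l) := by
          intro x hx
          rcases e1 with rfl | rfl
          · exact opp_mem hx
          · rw [← opp_compl]
            exact opp_mem (adj_compl.2 hx)
        rw [e3 _ ((adj_opp_of_crs' H.symm v).2 h1), e3 _ h1, opp_mem_other hl e2.1 e2.2]
      · push Not at e1
        rw [opp_mem_other hl e1.1 e1.2]
        by_cases e2 : l = k ∨ l = kᶜ
        · have e3 : ∀ x, X.Adj k x → (X.opp k x ∈ l ↔ x ∉ l) := by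
            intro x hx
            rcases e2 with rfl | rfl
            · exact opp_mem hx
            · rw [← opp_compl]
              exact opp_mem (adj_compl.2 hx)
          rw [e3 _ h2, e3 _ ((adj_opp_of_crs' H v).2 h2), opp_mem_other hl e1.1 e1.2]
        · push Not at e2
          rw [opp_mem_other hl e2.1 e2.2, opp_mem_other hl e2.1 e2.2,
            opp_mem_other hl e1.1 e1.2]
    · rw [opp_not h2, opp_not (mt (adj_opp_of_crs' H v).1 h2)]
  · rw [opp_not h1, opp_not (mt (adj_opp_of_crs' H.symm v).1 h1)]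

end Basic

section Base

variable {X}

/-- The half spaces in `D b v` cross. -/
theorem crs_of_D {b v : V} {h k : Set V} (hh : h ∈ X.D b v) (hk : k ∈ X.D b v) (hne : h ≠ k) :
    Crs h k := by
  obtain ⟨⟨hh1, hh2, hh3⟩, hh4⟩ := hh
  obtain ⟨⟨hk1, hk2, hk3⟩, hk4⟩ := hk
  refine ⟨⟨v, hh2, hk2⟩, ?_, ?_, ⟨b, hh4, hk4⟩⟩
  · by_contra hcon
    rw [Set.not_nonempty_iff_eq_empty, ← Set.sdiff_eq, Set.sdiff_eq_empty] at hcon
    exact hne (hk3 h hh1 hh2 hcon)
  · by_contra hcon
    rw [Set.not_nonempty_iff_eq_empty, Set.inter_comm, ← Set.sdiff_eq, Set.sdiff_eq_empty] at hcon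
    exact hne (hh3 k hk1 hk2 hcon).symm

/-- The distance from the base point. -/
noncomputable def nd (X : Med V) (b v : V) : ℕ := {h | h ∈ X.H ∧ b ∉ h ∧ v ∈ h}.ncard

theorem D_nonempty {b v : V} (h : v ≠ b) : (X.D b v).Nonempty := by
  obtain ⟨k, hk1, hk2, hk3⟩ : ∃ k ∈ X.H, b ∉ k ∧ v ∈ k := by
    by_contra hcon
    push Not at hcon
    refine h (X.sep _ _ fun k hk => ⟨fun hv => ?_, fun hb => ?_⟩)
    · by_contra hb
      exact hcon k hk hb hv
    · by_contra hv
      exact hcon kᶜ (X.compl k hk) (fun h => h hb) hv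
  have hfin : {l | l ∈ X.H ∧ b ∉ l ∧ v ∈ l}.Finite := X.fin b v
  obtain ⟨m, hm, hmin⟩ := hfin.exists_minimal ⟨k, hk1, hk2, hk3⟩
  refine ⟨m, ⟨hm.1, hm.2.2, fun l hl hvl hlm => ?_⟩, hm.2.1⟩
  exact Set.Subset.antisymm hlm (hmin ⟨hl, fun h => hm.2.1 (hlm h), hvl⟩ hlm)

theorem eq_of_D_empty {b v : V} (h : X.D b v = ∅) : v = b := by
  by_contra hne
  obtain ⟨k, hk⟩ := D_nonempty (X := X) hne
  rw [h] at hk
  exact hk

theorem nd_self (b : V) : X.nd b b = 0 := by
  have : {h | h ∈ X.H ∧ b ∉ h ∧ b ∈ h} = ∅ := by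
    ext h
    exact ⟨fun h => h.2.1 h.2.2, fun h => h.elim⟩
  rw [nd, this, Set.ncard_empty]

/-- The distance drops. -/
theorem nd_opp {b v : V} {h : Set V} (hh : h ∈ X.D b v) : X.nd b (X.opp h v) + 1 = X.nd b v := by
  have hadj : X.Adj h v := hh.1.adj
  have h1 : {k | k ∈ X.H ∧ b ∉ k ∧ v ∈ k} = insert h {k | k ∈ X.H ∧ b ∉ k ∧ X.opp h v ∈ k} := by
    ext k
    constructor
    · rintro ⟨h1, h2, h3⟩
      by_cases e1 : k = h
      · exact Or.inl e1
      · refine Or.inr ⟨h1, h2, (opp_mem_other h1 e1 ?_ v).2 h3⟩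
        rintro rfl
        exact h3 hh.1.2.1
    · rintro (rfl | ⟨h1, h2, h3⟩)
      · exact ⟨hh.1.1, hh.2, hh.1.2.1⟩
      · refine ⟨h1, h2, ?_⟩
        by_cases e1 : k = h
        · rw [e1]
          exact hh.1.2.1
        · by_cases e2 : k = hᶜ
          · exfalso
            rw [e2] at h2
            exact h2 hh.2
          · exact (opp_mem_other h1 e1 e2 v).1 h3
  have h2 : h ∉ {k | k ∈ X.H ∧ b ∉ k ∧ X.opp h v ∈ k} := by
    rintro ⟨-, -, h3⟩
    exact (opp_mem hadj).1 h3 hh.1.2.1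
  rw [nd, nd, h1, Set.ncard_insert_of_notMem h2 (X.fin b _)]

theorem nd_pos {b v : V} (h : v ≠ b) : X.nd b v ≠ 0 := by
  obtain ⟨k, hk⟩ := D_nonempty (X := X) h
  have := nd_opp hk
  omega

/-- The other elements of `D b v` are in `D b (opp h v)`. -/
theorem mem_D_opp {b v : V} {h k : Set V} (hh : h ∈ X.D b v) (hk : k ∈ X.D b v) (hne : h ≠ k) :
    k ∈ X.D b (X.opp h v) := by
  have hc := crs_of_D hh hk hne
  exact ⟨(adj_of_crs hc hh.1.adj hk.1.adj).mn
    ((opp_mem_other hk.1.1 hc.ne1 hc.ne2 v).2 hk.1.2.1), hk.2⟩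

/-- Change of the base point along an edge, elements of other walls. -/
theorem D_step {p x : V} {h a : Set V} (hp : X.Adj h p) (ha : a ∈ X.D p x) (h1 : a ≠ h)
    (h2 : a ≠ hᶜ) : a ∈ X.D (X.opp h p) x ∧ a ∈ X.D (X.opp h p) (X.opp h x) := by
  have hq : X.opp h p ∉ a := fun h3 => ha.2 ((opp_mem_other ha.1.1 h1 h2 p).1 h3)
  refine ⟨⟨ha.1, hq⟩, ?_⟩
  by_cases hx : X.Adj h x
  · refine ⟨⟨ha.1.1, (opp_mem_other ha.1.1 h1 h2 x).2 ha.1.2.1, fun l hl h3 h4 => ?_⟩, hq⟩
    by_contra hne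
    have h5 : x ∉ l := fun h5 => hne (ha.1.2.2 l hl h5 h4)
    have h6 : l = h ∨ l = hᶜ := by
      by_contra h6
      push Not at h6
      exact h5 ((opp_mem_other hl h6.1 h6.2 x).1 h3)
    rcases h6 with rfl | rfl
    · by_cases hpl : p ∈ l
      · exact ha.2 (h4 hpl)
      · exact hq (h4 ((opp_mem hp).2 hpl))
    · by_cases hpl : p ∈ h
      · exact hq (h4 (fun h => (opp_mem hp).1 h hpl))
      · exact ha.2 (h4 hpl)
  · rw [opp_not hx]
    exact ⟨ha.1, hq⟩

/-- The unoriented label: the half spaces in `D b v` and their complements. -/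
def lab (X : Med V) (b v : V) : Set (Set V) := {a | a ∈ X.D b v ∨ aᶜ ∈ X.D b v}

theorem lab_compl {b v : V} {a : Set V} : aᶜ ∈ X.lab b v ↔ a ∈ X.lab b v := by
  change aᶜ ∈ X.D b v ∨ aᶜᶜ ∈ X.D b v ↔ a ∈ X.D b v ∨ aᶜ ∈ X.D b v
  rw [compl_compl]
  exact or_comm

/-- If `v` is adjacent to `h`, then the wall of `h` is in the label iff it separates. -/
theorem mem_lab_iff {b v : V} {h : Set V} (hv : X.Adj h v) : h ∈ X.lab b v ↔ ¬ (b ∈ h ↔ v ∈ h) := by
  constructor
  · rintro (H | H)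
    · have h1 := H.2
      have h2 := H.1.2.1
      tauto
    · have h1 := H.2
      have h2 := H.1.2.1
      rw [Set.mem_compl_iff] at h1 h2
      tauto
  · intro H
    by_cases h1 : v ∈ h
    · exact Or.inl ⟨hv.mn h1, by tauto⟩
    · exact Or.inr ⟨(adj_compl.2 hv).mn h1, by rw [Set.mem_compl_iff]; tauto⟩

theorem adj_of_mem_lab {b v : V} {h : Set V} (H : h ∈ X.lab b v) : X.Adj h v := by
  rcases H with H | H
  · exact H.1.adj
  · exact adj_compl.1 H.1.adj

theorem lab_step_aux {p x : V} {h : Set V} (hp : X.Adj h p) (hx : X.Adj h x) {a : Set V}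
    (ha : a ∈ X.lab p x) : a ∈ X.lab (X.opp h p) (X.opp h x) := by
  by_cases e : a = h ∨ a = hᶜ
  · have h1 : h ∈ X.lab p x := by
      rcases e with rfl | rfl
      · exact ha
      · exact lab_compl.1 ha
    have h2 : h ∈ X.lab (X.opp h p) (X.opp h x) := by
      rw [mem_lab_iff (adj_opp.2 hx), opp_mem hp, opp_mem hx]
      rw [mem_lab_iff hx] at h1
      tauto
    rcases e with rfl | rfl
    · exact h2
    · exact lab_compl.2 h2
  · push Not at e
    rcases ha with ha | ha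
    · exact Or.inl (D_step hp ha e.1 e.2).2
    · exact Or.inr (D_step hp ha (fun h => e.2 (by rw [← h, compl_compl]))
        (fun h => e.1 (compl_injective h))).2

/-- Change of the base point along an edge, adjacent point. -/
theorem lab_step {p x : V} {h : Set V} (hp : X.Adj h p) (hx : X.Adj h x) :
    X.lab (X.opp h p) (X.opp h x) = X.lab p x := by
  ext a
  constructor
  · intro ha
    have := lab_step_aux (adj_opp.2 hp) (adj_opp.2 hx) ha
    rwa [opp_opp, opp_opp] at this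
  · exact lab_step_aux hp hx

/-- Change of the base point along an edge, other points. -/
theorem lab_step' {p x : V} {h : Set V} (hp : X.Adj h p) (hx : ¬ X.Adj h x) :
    X.lab (X.opp h p) x = X.lab p x := by
  have key : ∀ {p : V}, X.Adj h p → ∀ a, a ∈ X.lab p x → a ∈ X.lab (X.opp h p) x := by
    intro p hp a ha
    have h1 : X.Adj a x := adj_of_mem_lab ha
    have e1 : a ≠ h := by
      rintro rfl
      exact hx h1
    have e2 : a ≠ hᶜ := by
      rintro rfl
      exact hx (adj_compl.1 h1)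
    rcases ha with ha | ha
    · exact Or.inl (D_step hp ha e1 e2).1
    · exact Or.inr (D_step hp ha (fun h => e2 (by rw [← h, compl_compl]))
        (fun h => e1 (compl_injective h))).1
  ext a
  constructor
  · intro ha
    have := key (adj_opp.2 hp) a ha
    rwa [opp_opp] at this
  · exact key hp a

theorem lab_self (b : V) : X.lab b b = ∅ := by
  ext a
  change a ∈ X.D b b ∨ aᶜ ∈ X.D b b ↔ _
  rw [X.D_self]
  exact ⟨fun h => h.elim id id, fun h => h.elim⟩

theorem eq_of_lab_empty {b v : V} (h : X.lab b v = ∅) : v = b := by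
  refine eq_of_D_empty (X := X) ?_
  rw [Set.eq_empty_iff_forall_notMem] at h ⊢
  exact fun a ha => h a (Or.inl ha)

end Base

section Act

variable {X} {Γ : Type} [Group Γ] [MulAction Γ V] (hG : ∀ (g : Γ), ∀ h ∈ X.H, g • h ∈ X.H)

include hG

theorem smul_mem_iff (g : Γ) (h : Set V) : g • h ∈ X.H ↔ h ∈ X.H := by
  constructor
  · intro H
    have := hG g⁻¹ _ H
    rwa [inv_smul_smul] at this
  · exact hG g h

theorem Opp.smul {h : Set V} {v w : V} (H : X.Opp h v w) (g : Γ) : X.Opp (g • h) (g • v) (g • w) := by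
  refine ⟨hG g h H.1, ?_, fun k hk h1 h2 => ?_⟩
  · rw [Set.smul_mem_smul_set_iff, Set.smul_mem_smul_set_iff]
    exact H.2.1
  · have h3 := H.2.2 (g⁻¹ • k) (hG _ k hk) (fun h => h1 (by rw [← h, smul_inv_smul]))
      (fun h => h2 (by rw [← Set.smul_set_compl, ← h, smul_inv_smul]))
    rwa [Set.mem_inv_smul_set_iff, Set.mem_inv_smul_set_iff] at h3

theorem adj_smul (g : Γ) (h : Set V) (v : V) : X.Adj (g • h) (g • v) ↔ X.Adj h v := by
  constructor
  · rintro ⟨w, hw⟩
    have := hw.smul hG g⁻¹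
    rw [inv_smul_smul, inv_smul_smul] at this
    exact ⟨_, this⟩
  · rintro ⟨w, hw⟩
    exact ⟨_, hw.smul hG g⟩

theorem opp_smul (g : Γ) (h : Set V) (v : V) : X.opp (g • h) (g • v) = g • X.opp h v := by
  by_cases H : X.Adj h v
  · exact opp_eq ((opp_spec H).smul hG g)
  · rw [opp_not H, opp_not (mt (adj_smul hG g h v).1 H)]

theorem Mn.smul {h : Set V} {v : V} (H : X.Mn v h) (g : Γ) : X.Mn (g • v) (g • h) :=
  ((adj_smul hG g h v).2 H.adj).mn (Set.smul_mem_smul_set_iff.2 H.2.1)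

theorem D_smul (g : Γ) (b v : V) : X.D (g • b) (g • v) = g • X.D b v := by
  have key : ∀ (g : Γ) (b v : V) (a : Set V), a ∈ X.D b v → g • a ∈ X.D (g • b) (g • v) :=
    fun g b v a ha => ⟨ha.1.smul hG g, fun h => ha.2 (Set.smul_mem_smul_set_iff.1 h)⟩
  ext a
  rw [Set.mem_smul_set_iff_inv_smul_mem]
  constructor
  · intro ha
    have := key g⁻¹ _ _ a ha
    rwa [inv_smul_smul, inv_smul_smul] at this
  · intro ha
    have := key g _ _ _ ha
    rwa [smul_inv_smul] at this

theorem lab_smul (g : Γ) (b v : V) : X.lab (g • b) (g • v) = g • X.lab b v := by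
  ext a
  rw [Set.mem_smul_set_iff_inv_smul_mem]
  change a ∈ X.D (g • b) (g • v) ∨ aᶜ ∈ X.D (g • b) (g • v) ↔ g⁻¹ • a ∈ X.D b v ∨
    (g⁻¹ • a)ᶜ ∈ X.D b v
  rw [D_smul hG, Set.mem_smul_set_iff_inv_smul_mem, Set.mem_smul_set_iff_inv_smul_mem,
    Set.smul_set_compl]

end Act

end Pool.Agent.CC.Med
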